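import Pool.Agent.H965R5.Rig.Ring

set_option autoImplicit false
universe u
namespace H965R5.Rig

/-- solution of the recursion along the diagonals -/
def diagSol {E : Type u} [AddCommGroup E] (b : ℕ) (w : ℕ → ℕ → E) : ℕ → ℕ → E
  | j, 0 => - ∑ s ∈ Finset.range (b + 1 - j), w (j + s + 1) (s + 1)
  | 0, i + 1 => w 0 (i + 1)
  | j + 1, i + 1 => diagSol b w j i + w (j + 1) (i + 1)

theorem diagSol_eq {E : Type u} [AddCommGroup E] (b : ℕ) (w : ℕ → ℕ → E) (j : ℕ) :
    ∀ i, diagSol b w (j + i) i = - ∑ s ∈ Finset.range (b + 1 - j), w (j + s + 1) (s + 1) +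
      ∑ s ∈ Finset.range i, w (j + s + 1) (s + 1) := by
  intro i
  induction i with
  | zero => simp [diagSol]
  | succ i ih =>
    have h1 : diagSol b w (j + (i + 1)) (i + 1) = diagSol b w (j + i) i + w (j + i + 1) (i + 1) := rfl
    rw [h1, ih, Finset.sum_range_succ, add_assoc]

theorem diagSol_end {E : Type u} [AddCommGroup E] (b : ℕ) (w : ℕ → ℕ → E) (i : ℕ) (hi : i ≤ b) :
    diagSol b w b i = - w (b + 1) (i + 1) := by
  obtain ⟨j, rfl⟩ := Nat.exists_eq_add_of_le' hi
  rw [diagSol_eq]
  have h1 : j + i + 1 - j = i + 1 := by omega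
  rw [h1, Finset.sum_range_succ]
  abel

theorem lsurj : TaskLsurj.{u} := by
  intro E _ a b hab u v
  let w : ℕ → ℕ → E := fun j i => v j (i - 1) - u j i
  let g := diagSol b w
  let h : ℕ → ℕ → E := fun j i => match i, j with
    | 0, j => if j = b + 1 then u (b + 1) 0 else u j 0 + g j 0
    | i + 1, 0 => v 0 i
    | i + 1, j + 1 => v (j + 1) i + g j i
  refine ⟨g, h, ?_, ?_, ?_, ?_⟩
  · intro j i hj hi
    cases i with
    | zero =>
      have h1 : h j 0 = u j 0 + g j 0 := by
        show (if j = b + 1 then u (b + 1) 0 else u j 0 + g j 0) = _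
        rw [if_neg (by omega)]
      rw [h1]; abel
    | succ i =>
      cases j with
      | zero =>
        have h1 : g 0 (i + 1) = v 0 i - u 0 (i + 1) := rfl
        have h2 : h 0 (i + 1) = v 0 i := rfl
        rw [h1, h2]; abel
      | succ j =>
        have h1 : g (j + 1) (i + 1) = g j i + (v (j + 1) i - u (j + 1) (i + 1)) := rfl
        have h2 : h (j + 1) (i + 1) = v (j + 1) i + g j i := rfl
        rw [h1, h2]; abel
  · intro i hi
    cases i with
    | zero =>
      show u (b + 1) 0 = (if b + 1 = b + 1 then u (b + 1) 0 else _)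
      rw [if_pos rfl]
    | succ i =>
      have h2 : h (b + 1) (i + 1) = v (b + 1) i + g b i := rfl
      have h3 : g b i = - (v (b + 1) i - u (b + 1) (i + 1)) := diagSol_end b w i (by omega)
      rw [h2, h3]; abel
  · intro j i _ _
    have h2 : h (j + 1) (i + 1) = v (j + 1) i + g j i := rfl
    rw [h2]; abel
  · intro i _
    rfl

end H965R5.Rig
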