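import Pool.Agent.H965R5.Rig.Ring

set_option autoImplicit false
universe u
namespace H965R5.Rig

theorem ss_ok : TaskSS.{u} := by
  intro A _ _ h
  have hc : ComplementedLattice (Submodule (Kr A) (Kr A)) := h.toComplementedLattice
  obtain ⟨I', hI'⟩ := exists_isCompl (Submodule.span (Kr A) {(⟨0, 0, 1, 0⟩ : Kr A)})
  have h1 : (1 : Kr A) ∈ Submodule.span (Kr A) {(⟨0, 0, 1, 0⟩ : Kr A)} ⊔ I' := by
    rw [hI'.sup_eq_top]; trivial
  obtain ⟨e, he, e', he', hee⟩ := Submodule.mem_sup.mp h1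
  obtain ⟨x, rfl⟩ := Submodule.mem_span_singleton.mp he
  have h2 : (⟨0, 0, 1, 0⟩ : Kr A) * (x • (⟨0, 0, 1, 0⟩ : Kr A)) = 0 := by
    rw [smul_eq_mul]
    ext <;> simp
  have h3 : (⟨0, 0, 1, 0⟩ : Kr A) = (⟨0, 0, 1, 0⟩ : Kr A) * e' := by
    have h4 := congrArg (fun z => (⟨0, 0, 1, 0⟩ : Kr A) * z) hee
    simp only [mul_add, h2, zero_add, mul_one] at h4
    exact h4.symm
  have h5 : (⟨0, 0, 1, 0⟩ : Kr A) ∈ I' := by
    rw [h3]
    exact I'.smul_mem _ he'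
  have h6 : (⟨0, 0, 1, 0⟩ : Kr A) ∈ Submodule.span (Kr A) {(⟨0, 0, 1, 0⟩ : Kr A)} :=
    Submodule.mem_span_singleton_self _
  have h7 : (⟨0, 0, 1, 0⟩ : Kr A) ∈ (⊥ : Submodule (Kr A) (Kr A)) := by
    rw [← hI'.inf_eq_bot]
    exact ⟨h6, h5⟩
  rw [Submodule.mem_bot] at h7
  have h8 := congrArg Kr.u h7
  exact one_ne_zero h8

end H965R5.Rig
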